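import Pool.Agent.Y922.NV.Stm

/-!
Project NV (helper922): the excess of poles.
-/

set_option autoImplicit false

namespace Pool.Agent.Y248.NV

open Complex Pool.Agent.Y922.NV
open scoped Real

theorem t_EXC : S_EXC := by
  classical
  intro hz hp hg hl hpts x1 x2 h hx1 hx12 hx2 hh C
  have hd : 0 < x2 - x1 := by linarith
  obtain ⟨N, hN⟩ := exists_nat_ge ((2 * π * (C + 3) + 5 + 2 / (x2 - x1)) / π)
  rw [div_le_iff₀ Real.pi_pos] at hN
  have h2N : (0 : ℝ) < 2 ^ N := by positivity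
  set y : ℝ := (x1 + 1) * 2 ^ N with hy
  have hy0 : 0 < y := mul_pos (by linarith) h2N
  have hceil : 0 < ⌈y⌉₊ := Nat.ceil_pos.2 hy0
  set l : ℕ := ⌈y⌉₊ - 1 with hldef
  have hl1 : l + 1 = ⌈y⌉₊ := by omega
  have hle : y ≤ (l : ℝ) + 1 := by
    have := Nat.le_ceil y
    rw [← hl1] at this
    exact_mod_cast this
  have hlt : (l : ℝ) < y := Nat.lt_ceil.1 (by omega)
  set j : ℕ := Nat.pair N l with hj
  have hj1 : j.unpair.1 = N := by rw [hj, Nat.unpair_pair]
  have hj2 : j.unpair.2 = l := by rw [hj, Nat.unpair_pair]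
  have hcen : x1 - cen j = (y - l) * (1 / 2) ^ N := by
    rw [cen, hj1, hj2, hy, one_div, inv_pow]
    field_simp
    ring
  have hhalf : (0 : ℝ) < (1 / 2) ^ N := by positivity
  have hc0 : 0 < x1 - cen j := by
    rw [hcen]
    exact mul_pos (by linarith) hhalf
  have hc1 : x1 - cen j ≤ (1 / 2) ^ N := by
    rw [hcen]
    calc (y - l) * (1 / 2) ^ N ≤ 1 * (1 / 2) ^ N :=
          mul_le_mul_of_nonneg_right (by linarith) hhalf.le
      _ = (1 / 2) ^ N := one_mul _
  obtain ⟨hne, hpos, -, hth⟩ := hpts j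
  set E : ℕ := ((Finset.Icc (-((j : ℤ) + 1)) ((j : ℤ) + 1)).filter
      (fun k : ℤ => x1 < (k : ℝ) / (j + 1) ∧ (k : ℝ) / (j + 1) < x2)).card with hE
  have hg' := hg j x1 x2 hx1.le hx12 hx2.le
  rw [← hE] at hg'
  have hl' := hl N (cen j) x1 x2 hc0 hc1 hx12
  have hth' := hth x1 x2
  rw [hj1] at hth'
  have hgap : 2 * π * (((E + C : ℕ) : ℝ) + 1) ≤
      theta (idx j) (pt j) x2 - theta (idx j) (pt j) x1 := by
    rw [hth']
    push_cast
    nlinarith [hg', hl', hN]
  refine ⟨j, ?_⟩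
  obtain ⟨U, hU⟩ : ∃ U : Set ℂ, U = {z : ℂ | x1 < z.re ∧ z.re < x2 ∧ |z.im| < h} := ⟨_, rfl⟩
  have hUm : ∀ z : ℂ, z ∈ U ↔ (x1 < z.re ∧ z.re < x2 ∧ |z.im| < h) := by
    intro z
    rw [hU]
    exact Iff.rfl
  rw [← hU]
  have hpole := hp (ℤ ⊕ ℕ) (idx j) (pt j) hne hpos U x1 x2 (E + C) hx12
    (fun x ha hb => by
      rw [hUm]
      exact ⟨by simpa using ha, by simpa using hb, by simpa using hh⟩) hgap
  have hzero := hz (ℤ ⊕ ℕ) (idx j) (pt j) hne hpos U
  have hcard : ((idx j).filter (fun i => pt j i ∈ U)).card ≤ E := by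
    have hsub : (idx j).filter (fun i => pt j i ∈ U) ⊆
        ((Finset.Icc (-((j : ℤ) + 1)) ((j : ℤ) + 1)).filter
          (fun k : ℤ => x1 < (k : ℝ) / (j + 1) ∧ (k : ℝ) / (j + 1) < x2)).map
          Function.Embedding.inl := by
      intro i hi
      rw [Finset.mem_filter, hUm] at hi
      rcases i with k | n
      · rw [Finset.mem_map]
        refine ⟨k, ?_, rfl⟩
        rw [Finset.mem_filter]
        refine ⟨?_, hi.2.1, hi.2.2.1⟩
        have := hi.1
        rw [idx, Finset.inl_mem_disjSum] at this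
        exact this
      · exfalso
        have h1 : x1 < cen j := hi.2.1
        linarith
    exact (Finset.card_le_card hsub).trans (by rw [Finset.card_map])
  have hzero' : zeroCount (fun z => mm j z - I) U ≤ (E : ℕ∞) :=
    le_trans hzero (Nat.cast_le.2 hcard)
  calc zeroCount (fun z => mm j z - I) U + (C : ℕ∞) ≤ (E : ℕ∞) + (C : ℕ∞) := by
        gcongr
    _ = ((E + C : ℕ) : ℕ∞) := by push_cast; rfl
    _ ≤ _ := hpole

end Pool.Agent.Y248.NV
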